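import Mathlib

/-!
Weak zero-[1,t]-sum-free subsets of cyclic groups: a construction that lifts
a pair of sets of residues modulo `r` to a set modulo `r * q`.
-/

namespace Pool.Agent.H95J.HamCore

open Finset

/-- `S` is a set of residues `< n` of size `m` such that no nonempty subset with at most `t`
elements has sum divisible by `n`. -/
def Good (t n m : ℕ) : Prop :=
  ∃ S : Finset ℕ, (∀ x ∈ S, x < n) ∧ S.card = m ∧
    ∀ B ⊆ S, B.Nonempty → B.card ≤ t → ¬ n ∣ ∑ x ∈ B, x

theorem good_to_zmod {t n m : ℕ} (hn : 0 < n) (h : Good t n m) :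
    ∃ A : Finset (ZMod n), A.card = m ∧
      ∀ B ⊆ A, B.Nonempty → B.card ≤ t → ∑ x ∈ B, x ≠ 0 := by
  classical
  have : NeZero n := ⟨hn.ne'⟩
  obtain ⟨S, hS, hc, hf⟩ := h
  refine ⟨S.image (fun x : ℕ => (x : ZMod n)), ?_, ?_⟩
  · rw [Finset.card_image_of_injOn, hc]
    intro x hx y hy hxy
    have h1 : ((x : ℕ) : ZMod n).val = ((y : ℕ) : ZMod n).val := by
      simpa using congrArg ZMod.val hxy
    rwa [ZMod.val_natCast_of_lt (hS x hx), ZMod.val_natCast_of_lt (hS y hy)] at h1
  · intro B hB hne hcard hsum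
    -- pull back
    have hinj : Set.InjOn (ZMod.val : ZMod n → ℕ) (B : Set (ZMod n)) :=
      fun x _ y _ hxy => ZMod.val_injective n hxy
    apply hf (B.image ZMod.val)
    · intro y hy
      rw [Finset.mem_image] at hy
      obtain ⟨b, hb, rfl⟩ := hy
      have := hB hb
      rw [Finset.mem_image] at this
      obtain ⟨x, hx, rfl⟩ := this
      rw [ZMod.val_natCast_of_lt (hS x hx)]
      exact hx
    · exact hne.image _
    · rw [Finset.card_image_of_injOn hinj]; exact hcard
    · rw [Finset.sum_image hinj]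
      have : ((∑ x ∈ B, x.val : ℕ) : ZMod n) = 0 := by
        rw [Nat.cast_sum]
        simpa using hsum
      exact (ZMod.natCast_eq_zero_iff _ _).1 this

theorem zmod_to_good {t n m : ℕ} (hn : 0 < n)
    (h : ∃ A : Finset (ZMod n), A.card = m ∧
      ∀ B ⊆ A, B.Nonempty → B.card ≤ t → ∑ x ∈ B, x ≠ 0) : Good t n m := by
  classical
  have : NeZero n := ⟨hn.ne'⟩
  obtain ⟨A, hc, hf⟩ := h
  refine ⟨A.image ZMod.val, ?_, ?_, ?_⟩
  · intro x hx
    rw [Finset.mem_image] at hx
    obtain ⟨a, _, rfl⟩ := hx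
    exact ZMod.val_lt a
  · rw [Finset.card_image_of_injective _ (ZMod.val_injective n), hc]
  · intro B hB hne hcard hdvd
    have hlt : ∀ x ∈ B, x < n := by
      intro x hx
      have := hB hx
      rw [Finset.mem_image] at this
      obtain ⟨a, _, rfl⟩ := this
      exact ZMod.val_lt a
    have hinj : Set.InjOn (fun x : ℕ => (x : ZMod n)) (B : Set ℕ) := by
      intro x hx y hy hxy
      have h1 : ((x : ℕ) : ZMod n).val = ((y : ℕ) : ZMod n).val := by
        simpa using congrArg ZMod.val hxy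
      rwa [ZMod.val_natCast_of_lt (hlt x hx), ZMod.val_natCast_of_lt (hlt y hy)] at h1
    apply hf (B.image (fun x : ℕ => (x : ZMod n)))
    · intro y hy
      rw [Finset.mem_image] at hy
      obtain ⟨b, hb, rfl⟩ := hy
      have := hB hb
      rw [Finset.mem_image] at this
      obtain ⟨x, hx, rfl⟩ := this
      simpa using hx
    · exact hne.image _
    · rw [Finset.card_image_of_injOn hinj]; exact hcard
    · rw [Finset.sum_image hinj]
      rw [← Nat.cast_sum]
      exact (ZMod.natCast_eq_zero_iff _ _).2 hdvd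

/-- the lifted set -/
def lift (r q k : ℕ) (P H : Finset ℕ) : Finset ℕ :=
  ((Finset.Icc 1 (k - 1) ×ˢ Finset.range r).image (fun p => p.1 + q * p.2)) ∪
    (P.image (fun y => k + q * y)) ∪ (H.image (fun h => q * h))

theorem mem_lift {r q k : ℕ} {P H : Finset ℕ} {x : ℕ} :
    x ∈ lift r q k P H ↔ (∃ a b, 1 ≤ a ∧ a ≤ k - 1 ∧ b < r ∧ x = a + q * b) ∨
      (∃ y ∈ P, x = k + q * y) ∨ (∃ h ∈ H, x = q * h) := by
  unfold lift
  simp only [Finset.mem_union, Finset.mem_image, Finset.mem_product, Finset.mem_Icc,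
    Finset.mem_range, Prod.exists]
  constructor
  · rintro ((⟨a, b, ⟨⟨h1, h2⟩, h3⟩, rfl⟩ | ⟨y, hy, rfl⟩) | ⟨h, hh, rfl⟩)
    · exact Or.inl ⟨a, b, h1, h2, h3, rfl⟩
    · exact Or.inr (Or.inl ⟨y, hy, rfl⟩)
    · exact Or.inr (Or.inr ⟨h, hh, rfl⟩)
  · rintro (⟨a, b, h1, h2, h3, rfl⟩ | ⟨y, hy, rfl⟩ | ⟨h, hh, rfl⟩)
    · exact Or.inl (Or.inl ⟨a, b, ⟨⟨h1, h2⟩, h3⟩, rfl⟩)
    · exact Or.inl (Or.inr ⟨y, hy, rfl⟩)
    · exact Or.inr ⟨h, hh, rfl⟩

theorem core {t k q r : ℕ} (hk : 1 ≤ k) (htk : t * k ≤ q) (hkq : k < q) (P H : Finset ℕ)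
    (hP : ∀ y ∈ P, y < r) (hH : ∀ h ∈ H, h < r)
    (hHf : ∀ B ⊆ H, B.Nonempty → B.card ≤ t → ¬ r ∣ ∑ x ∈ B, x)
    (hPt : t * k = q → ∀ B ⊆ P, B.card = t → ¬ r ∣ (1 + ∑ x ∈ B, x)) :
    Good t (r * q) ((k - 1) * r + P.card + H.card) := by
  classical
  have hq : 0 < q := by omega
  refine ⟨lift r q k P H, ?_, ?_, ?_⟩
  · intro x hx
    rw [mem_lift] at hx
    rcases hx with ⟨a, b, h1, h2, h3, rfl⟩ | ⟨y, hy, rfl⟩ | ⟨h, hh, rfl⟩
    · have ha : a < q := by omega
      have : q * (b + 1) ≤ q * r := Nat.mul_le_mul_left _ h3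
      rw [mul_comm r q]; nlinarith
    · have := hP y hy
      have : q * (y + 1) ≤ q * r := Nat.mul_le_mul_left _ this
      rw [mul_comm r q]; nlinarith
    · have := hH h hh
      have : q * (h + 1) ≤ q * r := Nat.mul_le_mul_left _ this
      rw [mul_comm r q]; nlinarith
  · unfold lift
    rw [Finset.card_union_of_disjoint, Finset.card_union_of_disjoint]
    · rw [Finset.card_image_of_injOn, Finset.card_image_of_injective, Finset.card_image_of_injective]
      · simp
      · intro a b hab
        exact Nat.eq_of_mul_eq_mul_left hq hab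
      · intro a b hab
        have : q * a = q * b := by simpa using hab
        exact Nat.eq_of_mul_eq_mul_left hq this
      · rintro ⟨a, b⟩ hab ⟨c, d⟩ hcd h
        simp only [Finset.coe_product, Set.mem_prod, Finset.coe_Icc, Set.mem_Icc, Finset.coe_range,
          Set.mem_Iio] at hab hcd
        simp only at h
        have h1 : (a + q * b) % q = (c + q * d) % q := by rw [h]
        rw [Nat.add_mul_mod_self_left, Nat.add_mul_mod_self_left, Nat.mod_eq_of_lt (by omega),
          Nat.mod_eq_of_lt (by omega)] at h1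
        subst h1
        have h2 : q * b = q * d := by omega
        have h3 := Nat.eq_of_mul_eq_mul_left hq h2
        subst h3
        rfl
    · rw [Finset.disjoint_left]
      intro x hx hx'
      simp only [Finset.mem_image, Finset.mem_product, Finset.mem_Icc, Prod.exists] at hx hx'
      obtain ⟨a, b, ⟨⟨h1, h2⟩, -⟩, rfl⟩ := hx
      obtain ⟨y, -, h⟩ := hx'
      have h1' : (k + q * y) % q = (a + q * b) % q := by rw [h]
      rw [Nat.add_mul_mod_self_left, Nat.add_mul_mod_self_left, Nat.mod_eq_of_lt (by omega),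
          Nat.mod_eq_of_lt (by omega)] at h1'
      omega
    · rw [Finset.disjoint_left]
      intro x hx hx'
      simp only [Finset.mem_union, Finset.mem_image, Finset.mem_product, Finset.mem_Icc,
        Prod.exists] at hx hx'
      obtain ⟨h, -, rfl⟩ := hx'
      rcases hx with ⟨a, b, ⟨⟨h1, h2⟩, -⟩, h3⟩ | ⟨y, -, h3⟩
      · have h1' : (a + q * b) % q = (q * h) % q := by rw [h3]
        rw [Nat.add_mul_mod_self_left, Nat.mod_eq_of_lt (by omega), Nat.mul_mod_right] at h1'
        omega
      · have h1' : (k + q * y) % q = (q * h) % q := by rw [h3]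
        rw [Nat.add_mul_mod_self_left, Nat.mod_eq_of_lt (by omega), Nat.mul_mod_right] at h1'
        omega
  · intro B hB hne hcard hdvd
    -- residues
    have hres : ∀ x ∈ B, x % q ≤ k := by
      intro x hx
      have := mem_lift.1 (hB hx)
      rcases this with ⟨a, b, h1, h2, h3, rfl⟩ | ⟨y, hy, rfl⟩ | ⟨h, hh, rfl⟩
      · rw [Nat.add_mul_mod_self_left, Nat.mod_eq_of_lt (by omega)]; omega
      · rw [Nat.add_mul_mod_self_left, Nat.mod_eq_of_lt (by omega)]
      · rw [Nat.mul_mod_right]; omega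
    have hsplit : ∑ x ∈ B, x = ∑ x ∈ B, x % q + q * ∑ x ∈ B, x / q := by
      rw [Finset.mul_sum, ← Finset.sum_add_distrib]
      exact Finset.sum_congr rfl fun x _ => (Nat.mod_add_div x q).symm
    have hqd : q ∣ ∑ x ∈ B, x := (Dvd.intro_left r rfl).trans hdvd
    have hqd2 : q ∣ ∑ x ∈ B, x % q := by
      rw [hsplit] at hqd
      exact (Nat.dvd_add_left (Dvd.intro _ rfl)).1 hqd
    have hle : ∑ x ∈ B, x % q ≤ B.card * k := by
      simpa using Finset.sum_le_card_nsmul B (fun x => x % q) k hres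
    have hle2 : B.card * k ≤ t * k := Nat.mul_le_mul_right _ hcard
    obtain ⟨c, hc⟩ := hqd2
    have hc1 : c ≤ 1 := by
      by_contra hcon
      have : q * 2 ≤ q * c := Nat.mul_le_mul_left _ (by omega)
      omega
    rcases Nat.le_one_iff_eq_zero_or_eq_one.1 hc1 with rfl | rfl
    · -- all residues zero
      have hz : ∀ x ∈ B, x % q = 0 := by
        intro x hx
        have h0 : ∑ x ∈ B, x % q = 0 := by simpa using hc
        exact (Finset.sum_eq_zero_iff.1 h0) x hx
      have hBim : ∀ x ∈ B, ∃ h ∈ H, x = q * h := by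
        intro x hx
        have := mem_lift.1 (hB hx)
        have hz' := hz x hx
        rcases this with ⟨a, b, h1, h2, h3, rfl⟩ | ⟨y, hy, rfl⟩ | ⟨h, hh, rfl⟩
        · rw [Nat.add_mul_mod_self_left, Nat.mod_eq_of_lt (by omega)] at hz'; omega
        · rw [Nat.add_mul_mod_self_left, Nat.mod_eq_of_lt (by omega)] at hz'; omega
        · exact ⟨h, hh, rfl⟩
      have hinj : Set.InjOn (fun x => x / q) (B : Set ℕ) := by
        intro x hx y hy hxy
        obtain ⟨h, -, rfl⟩ := hBim x hx
        obtain ⟨h', -, rfl⟩ := hBim y hy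
        simp only [Nat.mul_div_cancel_left _ hq] at hxy
        rw [hxy]
      apply hHf (B.image (fun x => x / q))
      · intro y hy
        rw [Finset.mem_image] at hy
        obtain ⟨x, hx, rfl⟩ := hy
        obtain ⟨h, hh, rfl⟩ := hBim x hx
        simpa [Nat.mul_div_cancel_left _ hq] using hh
      · exact hne.image _
      · rw [Finset.card_image_of_injOn hinj]; exact hcard
      · rw [Finset.sum_image hinj]
        have h1 : ∑ x ∈ B, x = q * ∑ x ∈ B, x / q := by
          rw [hsplit, hc]; simp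
        rw [h1, mul_comm r q] at hdvd
        exact Nat.dvd_of_mul_dvd_mul_left hq hdvd
    · -- all residues equal k
      have hsum : ∑ x ∈ B, x % q = q := by simpa using hc
      have hcard' : B.card = t := by
        by_contra hcon
        have h1 : B.card + 1 ≤ t := by omega
        have h2 : (B.card + 1) * k ≤ t * k := Nat.mul_le_mul_right _ h1
        nlinarith
      have htk' : t * k = q := by
        rw [hcard'] at hle
        omega
      have hall : ∀ x ∈ B, x % q = k := by
        have h1 : ∑ x ∈ B, x % q = ∑ _x ∈ B, k := by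
          rw [Finset.sum_const, smul_eq_mul, hcard', htk', hsum]
        exact (Finset.sum_eq_sum_iff_of_le hres).1 h1
      have hBim : ∀ x ∈ B, ∃ h ∈ P, x = k + q * h := by
        intro x hx
        have := mem_lift.1 (hB hx)
        have hz' := hall x hx
        rcases this with ⟨a, b, h1, h2, h3, rfl⟩ | ⟨y, hy, rfl⟩ | ⟨h, hh, rfl⟩
        · rw [Nat.add_mul_mod_self_left, Nat.mod_eq_of_lt (by omega)] at hz'; omega
        · exact ⟨y, hy, rfl⟩
        · rw [Nat.mul_mod_right] at hz'; omega
      have hdiv : ∀ y : ℕ, (k + q * y) / q = y := by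
        intro y
        rw [Nat.add_mul_div_left _ _ hq, Nat.div_eq_of_lt hkq, zero_add]
      have hinj : Set.InjOn (fun x => x / q) (B : Set ℕ) := by
        intro x hx y hy hxy
        obtain ⟨h, -, rfl⟩ := hBim x hx
        obtain ⟨h', -, rfl⟩ := hBim y hy
        simp only [hdiv] at hxy
        rw [hxy]
      apply hPt htk' (B.image (fun x => x / q))
      · intro y hy
        rw [Finset.mem_image] at hy
        obtain ⟨x, hx, rfl⟩ := hy
        obtain ⟨h, hh, rfl⟩ := hBim x hx
        simpa [hdiv] using hh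
      · rw [Finset.card_image_of_injOn hinj]; exact hcard'
      · rw [Finset.sum_image hinj]
        have h1 : ∑ x ∈ B, x = q * (1 + ∑ x ∈ B, x / q) := by
          rw [hsplit, hsum]; ring
        rw [h1, mul_comm r q] at hdvd
        exact Nat.dvd_of_mul_dvd_mul_left hq hdvd

end Pool.Agent.H95J.HamCore
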