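import Pool.Agent.H95J.HamCore

/-!
The families of pairs (t, n) used for the attained-pairs theorem.
-/

namespace Pool.Agent.H95J.HamCore

open Finset

theorem sum_split {q : ℕ} (B : Finset ℕ) :
    ∑ x ∈ B, x = ∑ x ∈ B, x % q + q * ∑ x ∈ B, x / q := by
  rw [Finset.mul_sum, ← Finset.sum_add_distrib]
  exact Finset.sum_congr rfl fun x _ => (Nat.mod_add_div x q).symm

/-- initial segments -/
theorem seg {t n m : ℕ} (h : ∀ B ⊆ Finset.Icc 1 m, B.card ≤ t → ∑ x ∈ B, x < n) (hm : m < n) :
    Good t n m := by
  refine ⟨Finset.Icc 1 m, ?_, by simp, ?_⟩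
  · intro x hx
    rw [Finset.mem_Icc] at hx; omega
  · intro B hB hne hcard hdvd
    have h1 := h B hB hcard
    have h2 : 0 < ∑ x ∈ B, x := by
      apply Finset.sum_pos _ hne
      intro x hx
      have := hB hx
      rw [Finset.mem_Icc] at this; omega
    exact absurd (Nat.le_of_dvd h2 hdvd) (by omega)

theorem seg3_sum {m : ℕ} (hm : 2 ≤ m) (B : Finset ℕ) (hB : B ⊆ Finset.Icc 1 m)
    (hcard : B.card ≤ 3) : ∑ x ∈ B, x ≤ 3 * m - 3 := by
  classical
  -- at most one element equal to m, at most one equal to m - 1
  by_cases h3 : B.card ≤ 1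
  · have : ∑ x ∈ B, x ≤ B.card * m := by
      simpa using Finset.sum_le_card_nsmul B (fun x => x) m
        (fun x hx => (Finset.mem_Icc.1 (hB hx)).2)
    have : B.card * m ≤ 1 * m := Nat.mul_le_mul_right _ h3
    omega
  · have hT : (B.filter (fun x => x = m)).card ≤ 1 := by
      rw [Finset.card_le_one]
      intro a ha b hb
      rw [Finset.mem_filter] at ha hb
      rw [ha.2, hb.2]
    have hT' : (B.filter (fun x => x = m - 1)).card ≤ 1 := by
      rw [Finset.card_le_one]
      intro a ha b hb
      rw [Finset.mem_filter] at ha hb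
      rw [ha.2, hb.2]
    -- sum of x + [x = m-1] + 2... bound pointwise: x ≤ (m-2) + 2 [x = m] + [x = m-1]
    have hpt : ∀ x ∈ B, x ≤ (m - 2) + 2 * (if x = m then 1 else 0) + (if x = m - 1 then 1 else 0) := by
      intro x hx
      have := Finset.mem_Icc.1 (hB hx)
      split_ifs <;> omega
    have hs := Finset.sum_le_sum hpt
    rw [Finset.sum_add_distrib, Finset.sum_add_distrib, Finset.sum_const, smul_eq_mul,
      ← Finset.mul_sum, Finset.sum_boole, Finset.sum_boole] at hs
    simp only [Nat.cast_id] at hs
    have h4 : B.card * (m - 2) ≤ 3 * (m - 2) := Nat.mul_le_mul_right _ hcard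
    omega

theorem fam_seg3 {j : ℕ} (hj : 1 ≤ j) : Good 3 (3 * j + 1) (j + 1) := by
  apply seg _ (by omega)
  intro B hB hc
  have := seg3_sum (by omega) B hB hc
  omega

theorem fam_yin {K : ℕ} (hK : 2 ≤ K) : Good 3 (2 * (3 * K - 2)) (2 * K) := by
  classical
  set q := 3 * K - 2 with hq
  have hq0 : 0 < q := by omega
  have hmem : ∀ x ∈ lift 2 q K {1} {1}, x % q < K ∨ x = K + q := by
    intro x hx
    rcases mem_lift.1 hx with ⟨a, b, h1, h2, h3, rfl⟩ | ⟨y, hy, rfl⟩ | ⟨h, hh, rfl⟩
    · left
      rw [Nat.add_mul_mod_self_left, Nat.mod_eq_of_lt (by omega)]; omega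
    · right
      rw [Finset.mem_singleton] at hy; subst hy; ring
    · left
      rw [Nat.mul_mod_right]; omega
  have hlt : ∀ x ∈ lift 2 q K {1} {1}, x < 2 * q := by
    intro x hx
    rcases mem_lift.1 hx with ⟨a, b, h1, h2, h3, rfl⟩ | ⟨y, hy, rfl⟩ | ⟨h, hh, rfl⟩
    · interval_cases b <;> omega
    · rw [Finset.mem_singleton] at hy; subst hy; omega
    · rw [Finset.mem_singleton] at hh; subst hh; omega
  refine ⟨lift 2 q K {1} {1}, hlt, ?_, ?_⟩
  · unfold lift
    rw [Finset.card_union_of_disjoint, Finset.card_union_of_disjoint]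
    · rw [Finset.card_image_of_injOn]
      · simp; omega
      · rintro ⟨a, b⟩ hab ⟨c, d⟩ hcd h
        simp only [Finset.coe_product, Set.mem_prod, Finset.coe_Icc, Set.mem_Icc, Finset.coe_range,
          Set.mem_Iio] at hab hcd
        simp only at h
        obtain ⟨⟨_, _⟩, hb⟩ := hab
        obtain ⟨⟨_, _⟩, hd⟩ := hcd
        interval_cases b <;> interval_cases d <;> simp_all <;> omega
    · rw [Finset.disjoint_left]
      intro x hx hx'
      simp only [Finset.mem_image, Finset.mem_product, Finset.mem_Icc, Prod.exists,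
        Finset.mem_singleton, Finset.mem_range] at hx hx'
      obtain ⟨a, b, ⟨⟨h1, h2⟩, h3⟩, rfl⟩ := hx
      obtain ⟨y, rfl, h⟩ := hx'
      interval_cases b <;> omega
    · rw [Finset.disjoint_left]
      intro x hx hx'
      simp only [Finset.mem_union, Finset.mem_image, Finset.mem_product, Finset.mem_Icc,
        Prod.exists, Finset.mem_singleton, Finset.mem_range] at hx hx'
      obtain ⟨h, rfl, rfl⟩ := hx'
      rcases hx with ⟨a, b, ⟨⟨h1, h2⟩, h3'⟩, h3⟩ | ⟨y, rfl, h3⟩
      · interval_cases b <;> omega
      · omega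
  · intro B hB hne hcard hdvd
    have hsplit := sum_split (q := q) B
    have hqd : q ∣ ∑ x ∈ B, x := (Dvd.intro_left 2 rfl).trans hdvd
    have hqd2 : q ∣ ∑ x ∈ B, x % q := by
      rw [hsplit] at hqd
      exact (Nat.dvd_add_left (Dvd.intro _ rfl)).1 hqd
    have hKq : (K + q) % q = K := by
      rw [Nat.add_mod_right, Nat.mod_eq_of_lt (by omega)]
    have hT : (B.filter (fun x => x = K + q)).card ≤ 1 := by
      rw [Finset.card_le_one]
      intro a ha b hb
      rw [Finset.mem_filter] at ha hb
      rw [ha.2, hb.2]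
    have hpt : ∀ x ∈ B, x % q ≤ (K - 1) + (if x = K + q then 1 else 0) := by
      intro x hx
      rcases hmem x (hB hx) with h | h
      · split_ifs <;> omega
      · rw [if_pos h, h, hKq]; omega
    have hs := Finset.sum_le_sum hpt
    rw [Finset.sum_add_distrib, Finset.sum_const, smul_eq_mul, Finset.sum_boole] at hs
    simp only [Nat.cast_id] at hs
    have h4 : B.card * (K - 1) ≤ 3 * (K - 1) := Nat.mul_le_mul_right _ hcard
    obtain ⟨c, hc⟩ := hqd2
    have hc1 : c ≤ 1 := by
      by_contra hcon
      have : q * 2 ≤ q * c := Nat.mul_le_mul_left _ (by omega)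
      omega
    rcases Nat.le_one_iff_eq_zero_or_eq_one.1 hc1 with rfl | rfl
    · have hz : ∀ x ∈ B, x % q = 0 := by
        intro x hx
        have h0 : ∑ x ∈ B, x % q = 0 := by simpa using hc
        exact (Finset.sum_eq_zero_iff.1 h0) x hx
      have hBq : ∀ x ∈ B, x = q := by
        intro x hx
        have hz' := hz x hx
        rcases mem_lift.1 (hB hx) with ⟨a, b, h1, h2, h3, rfl⟩ | ⟨y, hy, rfl⟩ | ⟨h, hh, rfl⟩
        · rw [Nat.add_mul_mod_self_left, Nat.mod_eq_of_lt (by omega)] at hz'; omega
        · rw [Nat.add_mul_mod_self_left, Nat.mod_eq_of_lt (by omega)] at hz'; omega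
        · rw [Finset.mem_singleton] at hh; subst hh; omega
      have hBs : B = {q} := by
        apply Finset.eq_singleton_iff_nonempty_unique_mem.2 ⟨hne, hBq⟩
      rw [hBs, Finset.sum_singleton] at hdvd
      exact absurd (Nat.le_of_dvd hq0 hdvd) (by omega)
    · have hsum : ∑ x ∈ B, x % q = q := by simpa using hc
      -- the filter is a singleton and |B| = 3
      have hB3 : B.card = 3 := by
        by_contra hcon
        have h5 : B.card ≤ 2 := by omega
        have h6 : B.card * (K - 1) ≤ 2 * (K - 1) := Nat.mul_le_mul_right _ h5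
        omega
      have hT1 : (B.filter (fun x => x = K + q)).card = 1 := by
        by_contra hcon
        have h5 : (B.filter (fun x => x = K + q)).card = 0 := by omega
        omega
      have heq : ∑ x ∈ B, x % q = ∑ x ∈ B, ((K - 1) + (if x = K + q then 1 else 0)) := by
        rw [Finset.sum_add_distrib, Finset.sum_const, smul_eq_mul, Finset.sum_boole, hB3, hT1, hsum]
        simp only [Nat.cast_one]
        omega
      have hall := (Finset.sum_eq_sum_iff_of_le hpt).1 heq
      have hKB : K + q ∈ B := by
        obtain ⟨x, hx⟩ := Finset.card_pos.1 (by omega : 0 < (B.filter (fun x => x = K + q)).card)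
        rw [Finset.mem_filter] at hx
        rw [← hx.2]; exact hx.1
      have hU : B.erase (K + q) ⊆ {K - 1, K - 1 + q} := by
        intro x hx
        rw [Finset.mem_erase] at hx
        have h5 := hall x hx.2
        rw [if_neg hx.1] at h5
        rw [Finset.mem_insert, Finset.mem_singleton]
        have h6 := hlt x (hB hx.2)
        have h7 := Nat.mod_add_div x q
        have h8 : x / q < 2 := Nat.div_lt_of_lt_mul (by omega)
        rw [h5] at h7
        interval_cases (x / q) <;> omega
      have hUc : (B.erase (K + q)).card = 2 := by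
        rw [Finset.card_erase_of_mem hKB, hB3]
      have hUe : B.erase (K + q) = {K - 1, K - 1 + q} := by
        apply Finset.eq_of_subset_of_card_le hU
        rw [hUc]
        exact Finset.card_le_two
      have hsumB : ∑ x ∈ B, x = q * 3 := by
        rw [← Finset.add_sum_erase B (fun x => x) hKB, hUe, Finset.sum_pair (by omega)]
        omega
      rw [hsumB] at hdvd
      obtain ⟨d, hd⟩ := hdvd
      have : q * 3 = q * (2 * d) := by rw [hd]; ring
      have := Nat.eq_of_mul_eq_mul_left hq0 this
      omega

theorem fam_four {k : ℕ} (hk : 2 ≤ k) : Good 4 (2 * (4 * k - 2)) (2 * k + 1) := by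
  classical
  set q := 4 * k - 2 with hq
  have hq0 : 0 < q := by omega
  have hlt : ∀ x ∈ lift 2 q k {0, 1} {1}, x < 2 * q := by
    intro x hx
    rcases mem_lift.1 hx with ⟨a, b, h1, h2, h3, rfl⟩ | ⟨y, hy, rfl⟩ | ⟨h, hh, rfl⟩
    · interval_cases b <;> omega
    · rw [Finset.mem_insert, Finset.mem_singleton] at hy
      rcases hy with rfl | rfl <;> omega
    · rw [Finset.mem_singleton] at hh; subst hh; omega
  refine ⟨lift 2 q k {0, 1} {1}, hlt, ?_, ?_⟩
  · unfold lift
    rw [Finset.card_union_of_disjoint, Finset.card_union_of_disjoint]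
    · rw [Finset.card_image_of_injOn, Finset.card_image_of_injOn]
      · simp; omega
      · intro a ha b hb hab
        simp only [Finset.coe_insert, Finset.coe_singleton, Set.mem_insert_iff,
          Set.mem_singleton_iff] at ha hb
        rcases ha with rfl | rfl <;> rcases hb with rfl | rfl <;> simp at hab ⊢ <;> omega
      · rintro ⟨a, b⟩ hab ⟨c, d⟩ hcd h
        simp only [Finset.coe_product, Set.mem_prod, Finset.coe_Icc, Set.mem_Icc, Finset.coe_range,
          Set.mem_Iio] at hab hcd
        simp only at h
        obtain ⟨⟨_, _⟩, hb⟩ := hab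
        obtain ⟨⟨_, _⟩, hd⟩ := hcd
        interval_cases b <;> interval_cases d <;> simp_all <;> omega
    · rw [Finset.disjoint_left]
      intro x hx hx'
      simp only [Finset.mem_image, Finset.mem_product, Finset.mem_Icc, Prod.exists,
        Finset.mem_singleton, Finset.mem_insert, Finset.mem_range] at hx hx'
      obtain ⟨a, b, ⟨⟨h1, h2⟩, h3⟩, rfl⟩ := hx
      obtain ⟨y, rfl | rfl, h⟩ := hx' <;> interval_cases b <;> omega
    · rw [Finset.disjoint_left]
      intro x hx hx'
      simp only [Finset.mem_union, Finset.mem_image, Finset.mem_product, Finset.mem_Icc,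
        Prod.exists, Finset.mem_singleton, Finset.mem_insert, Finset.mem_range] at hx hx'
      obtain ⟨h, rfl, rfl⟩ := hx'
      rcases hx with ⟨a, b, ⟨⟨h1, h2⟩, h3'⟩, h3⟩ | ⟨y, rfl | rfl, h3⟩
      · interval_cases b <;> omega
      · omega
      · omega
  · intro B hB hne hcard hdvd
    have hsplit := sum_split (q := q) B
    have hqd : q ∣ ∑ x ∈ B, x := (Dvd.intro_left 2 rfl).trans hdvd
    have hqd2 : q ∣ ∑ x ∈ B, x % q := by
      rw [hsplit] at hqd
      exact (Nat.dvd_add_left (Dvd.intro _ rfl)).1 hqd
    have hres : ∀ x ∈ B, x % q ≤ k := by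
      intro x hx
      rcases mem_lift.1 (hB hx) with ⟨a, b, h1, h2, h3, rfl⟩ | ⟨y, hy, rfl⟩ | ⟨h, hh, rfl⟩
      · rw [Nat.add_mul_mod_self_left, Nat.mod_eq_of_lt (by omega)]; omega
      · rw [Nat.add_mul_mod_self_left, Nat.mod_eq_of_lt (by omega)]
      · rw [Nat.mul_mod_right]; omega
    have hTs : B.filter (fun x => x % q = k) ⊆ {k, k + q} := by
      intro x hx
      rw [Finset.mem_filter] at hx
      rw [Finset.mem_insert, Finset.mem_singleton]
      have h6 := hlt x (hB hx.1)
      have h7 := Nat.mod_add_div x q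
      have h8 : x / q < 2 := Nat.div_lt_of_lt_mul (by omega)
      rw [hx.2] at h7
      interval_cases (x / q) <;> omega
    have hT : (B.filter (fun x => x % q = k)).card ≤ 2 :=
      (Finset.card_le_card hTs).trans Finset.card_le_two
    have hpt : ∀ x ∈ B, x % q ≤ (k - 1) + (if x % q = k then 1 else 0) := by
      intro x hx
      have := hres x hx
      split_ifs <;> omega
    have hs := Finset.sum_le_sum hpt
    rw [Finset.sum_add_distrib, Finset.sum_const, smul_eq_mul, Finset.sum_boole] at hs
    simp only [Nat.cast_id] at hs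
    have h4 : B.card * (k - 1) ≤ 4 * (k - 1) := Nat.mul_le_mul_right _ hcard
    obtain ⟨c, hc⟩ := hqd2
    have hc1 : c ≤ 1 := by
      by_contra hcon
      have : q * 2 ≤ q * c := Nat.mul_le_mul_left _ (by omega)
      omega
    rcases Nat.le_one_iff_eq_zero_or_eq_one.1 hc1 with rfl | rfl
    · have hz : ∀ x ∈ B, x % q = 0 := by
        intro x hx
        have h0 : ∑ x ∈ B, x % q = 0 := by simpa using hc
        exact (Finset.sum_eq_zero_iff.1 h0) x hx
      have hBq : ∀ x ∈ B, x = q := by
        intro x hx
        have hz' := hz x hx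
        rcases mem_lift.1 (hB hx) with ⟨a, b, h1, h2, h3, rfl⟩ | ⟨y, hy, rfl⟩ | ⟨h, hh, rfl⟩
        · rw [Nat.add_mul_mod_self_left, Nat.mod_eq_of_lt (by omega)] at hz'; omega
        · rw [Nat.add_mul_mod_self_left, Nat.mod_eq_of_lt (by omega)] at hz'; omega
        · rw [Finset.mem_singleton] at hh; subst hh; omega
      have hBs : B = {q} := by
        apply Finset.eq_singleton_iff_nonempty_unique_mem.2 ⟨hne, hBq⟩
      rw [hBs, Finset.sum_singleton] at hdvd
      exact absurd (Nat.le_of_dvd hq0 hdvd) (by omega)
    · have hsum : ∑ x ∈ B, x % q = q := by simpa using hc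
      -- |B| = 4
      have hTle : (B.filter (fun x => x % q = k)).card ≤ B.card := Finset.card_filter_le _ _
      have hB4 : B.card = 4 := by
        by_contra hcon
        have h5 : B.card ≤ 3 := by omega
        have h6 : B.card * (k - 1) ≤ 3 * (k - 1) := Nat.mul_le_mul_right _ h5
        by_cases h7 : B.card ≤ 2
        · have h8 : B.card * (k - 1) ≤ 2 * (k - 1) := Nat.mul_le_mul_right _ h7
          omega
        · omega
      have hT2 : (B.filter (fun x => x % q = k)).card = 2 := by
        rw [hB4] at hs
        omega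
      have heq : ∑ x ∈ B, x % q = ∑ x ∈ B, ((k - 1) + (if x % q = k then 1 else 0)) := by
        rw [Finset.sum_add_distrib, Finset.sum_const, smul_eq_mul, Finset.sum_boole, hB4, hT2, hsum]
        simp only [Nat.cast_ofNat]
        omega
      have hall := (Finset.sum_eq_sum_iff_of_le hpt).1 heq
      have hTe : B.filter (fun x => x % q = k) = {k, k + q} := by
        apply Finset.eq_of_subset_of_card_le hTs
        rw [hT2]
        exact Finset.card_le_two
      have hU : B.filter (fun x => ¬ x % q = k) ⊆ {k - 1, k - 1 + q} := by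
        intro x hx
        rw [Finset.mem_filter] at hx
        have h5 := hall x hx.1
        rw [if_neg hx.2] at h5
        rw [Finset.mem_insert, Finset.mem_singleton]
        have h6 := hlt x (hB hx.1)
        have h7 := Nat.mod_add_div x q
        have h8 : x / q < 2 := Nat.div_lt_of_lt_mul (by omega)
        rw [h5] at h7
        interval_cases (x / q) <;> omega
      have hUc : (B.filter (fun x => ¬ x % q = k)).card = 2 := by
        have := Finset.card_filter_add_card_filter_not (s := B) (fun x => x % q = k)
        omega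
      have hUe : B.filter (fun x => ¬ x % q = k) = {k - 1, k - 1 + q} := by
        apply Finset.eq_of_subset_of_card_le hU
        rw [hUc]
        exact Finset.card_le_two
      have hsumB : ∑ x ∈ B, x = q * 3 := by
        rw [← Finset.sum_filter_add_sum_filter_not B (fun x => x % q = k), hTe, hUe,
          Finset.sum_pair (by omega), Finset.sum_pair (by omega)]
        omega
      rw [hsumB] at hdvd
      obtain ⟨d, hd⟩ := hdvd
      have : q * 3 = q * (2 * d) := by rw [hd]; ring
      have := Nat.eq_of_mul_eq_mul_left hq0 this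
      omega

end Pool.Agent.H95J.HamCore
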