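import Pool.Agent.H95J.HamFam

/-!
Closure under multiplication by q congruent to 1 mod t, and the sporadic seeds.
-/

namespace Pool.Agent.H95J.HamCore

open Finset

theorem closure_good {t n k m : ℕ} (ht : 1 ≤ t) (h : Good t n m) :
    Good t (n * (t * k + 1)) (k * n + m) := by
  classical
  rcases Nat.eq_zero_or_pos k with rfl | hk
  · simpa using h
  · obtain ⟨S, hS, hc, hf⟩ := h
    have := core (t := t) (k := k) (q := t * k + 1) (r := n) hk (by omega)
      (by nlinarith) (Finset.range n) S (by simp) hS hf (by omega)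
    have e : (k - 1) * n + (Finset.range n).card + S.card = k * n + m := by
      rw [Finset.card_range, hc]
      obtain ⟨j, rfl⟩ : ∃ j, k = j + 1 := ⟨k - 1, by omega⟩
      simp only [Nat.add_sub_cancel]
      ring
    rwa [e] at this

theorem target_mul {t n k : ℕ} (ht : 1 ≤ t) (hn : 2 ≤ n) :
    (n * (t * k + 1) - 2) / t = k * n + (n - 2) / t := by
  have h : n * (t * k + 1) - 2 = (n - 2) + t * (k * n) := by
    have : n * (t * k + 1) = n + t * (k * n) := by ring
    omega
  rw [h, Nat.add_mul_div_left _ _ (by omega)]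
  ring

theorem seed9_4 : Good 4 9 4 := by
  refine ⟨{1, 3, 4, 7}, by decide, by decide, ?_⟩
  intro B hB
  rw [← Finset.mem_powerset] at hB
  revert B
  decide

theorem seed11_4 : Good 4 11 5 := by
  refine ⟨{1, 3, 4, 5, 9}, by decide, by decide, ?_⟩
  intro B hB
  rw [← Finset.mem_powerset] at hB
  revert B
  decide

theorem seed11_3 : Good 3 11 5 := by
  refine ⟨{1, 3, 4, 5, 9}, by decide, by decide, ?_⟩
  intro B hB
  rw [← Finset.mem_powerset] at hB
  revert B
  decide

theorem seed13_4 : Good 4 13 5 := by
  refine ⟨{1, 2, 6, 8, 9}, by decide, by decide, ?_⟩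
  intro B hB
  rw [← Finset.mem_powerset] at hB
  revert B
  decide

theorem seed17_4 : Good 4 17 6 := by
  refine ⟨{1, 2, 5, 6, 7, 13}, by decide, by decide, ?_⟩
  intro B hB
  rw [← Finset.mem_powerset] at hB
  revert B
  decide

theorem seed16_5 : Good 5 16 6 := by
  refine ⟨{1, 3, 9, 10, 11, 14}, by decide, by decide, ?_⟩
  intro B hB
  rw [← Finset.mem_powerset] at hB
  revert B
  decide

theorem fam3_6 {k : ℕ} (hk : 1 ≤ k) : Good 3 (6 * k) (2 * k + 1) := by
  have := core (t := 3) (k := k) (q := 3 * k) (r := 2) hk le_rfl (by omega) {0, 1} {1}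
    (by decide) (by decide)
    (by
      intro B hB
      rw [← Finset.mem_powerset] at hB
      revert B
      decide)
    (by
      intro _ B hB
      rw [← Finset.mem_powerset] at hB
      revert B
      decide)
  have e1 : 2 * (3 * k) = 6 * k := by ring
  have e2 : (k - 1) * 2 + ({0, 1} : Finset ℕ).card + ({1} : Finset ℕ).card = 2 * k + 1 := by
    simp; omega
  rwa [e1, e2] at this

theorem fam3_9 {k : ℕ} (hk : 1 ≤ k) : Good 3 (9 * k) (3 * k + 1) := by
  have := core (t := 3) (k := k) (q := 3 * k) (r := 3) hk le_rfl (by omega) {0, 1, 2} {1}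
    (by decide) (by decide)
    (by
      intro B hB
      rw [← Finset.mem_powerset] at hB
      revert B
      decide)
    (by
      intro _ B hB
      rw [← Finset.mem_powerset] at hB
      revert B
      decide)
  have e1 : 3 * (3 * k) = 9 * k := by ring
  have e2 : (k - 1) * 3 + ({0, 1, 2} : Finset ℕ).card + ({1} : Finset ℕ).card = 3 * k + 1 := by
    have : ({0, 1, 2} : Finset ℕ).card = 3 := by decide
    simp [this]; omega
  rwa [e1, e2] at this

theorem fam3_15 {k : ℕ} (hk : 1 ≤ k) : Good 3 (15 * k) (5 * k + 1) := by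
  have := core (t := 3) (k := k) (q := 3 * k) (r := 5) hk le_rfl (by omega) {0, 1, 2, 4} {1, 2}
    (by decide) (by decide)
    (by
      intro B hB
      rw [← Finset.mem_powerset] at hB
      revert B
      decide)
    (by
      intro _ B hB
      rw [← Finset.mem_powerset] at hB
      revert B
      decide)
  have e1 : 5 * (3 * k) = 15 * k := by ring
  have e2 : (k - 1) * 5 + ({0, 1, 2, 4} : Finset ℕ).card + ({1, 2} : Finset ℕ).card
      = 5 * k + 1 := by
    have : ({0, 1, 2, 4} : Finset ℕ).card = 4 := by decide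
    have h2 : ({1, 2} : Finset ℕ).card = 2 := by decide
    rw [this, h2]; omega
  rwa [e1, e2] at this

theorem fam4_16 {k : ℕ} (hk : 1 ≤ k) : Good 4 (16 * k) (4 * k + 2) := by
  have := core (t := 4) (k := k) (q := 4 * k) (r := 4) hk le_rfl (by omega) {0, 1, 2, 3} {1, 2}
    (by decide) (by decide)
    (by
      intro B hB
      rw [← Finset.mem_powerset] at hB
      revert B
      decide)
    (by
      intro _ B hB
      rw [← Finset.mem_powerset] at hB
      revert B
      decide)
  have e1 : 4 * (4 * k) = 16 * k := by ring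
  have e2 : (k - 1) * 4 + ({0, 1, 2, 3} : Finset ℕ).card + ({1, 2} : Finset ℕ).card
      = 4 * k + 2 := by
    have : ({0, 1, 2, 3} : Finset ℕ).card = 4 := by decide
    have h2 : ({1, 2} : Finset ℕ).card = 2 := by decide
    rw [this, h2]; omega
  rwa [e1, e2] at this

theorem fam4_24 {k : ℕ} (hk : 1 ≤ k) : Good 4 (24 * k) (6 * k + 2) := by
  have := core (t := 4) (k := k) (q := 4 * k) (r := 6) hk le_rfl (by omega) {0, 1, 3, 4, 5}
    {1, 3, 4}
    (by decide) (by decide)
    (by
      intro B hB
      rw [← Finset.mem_powerset] at hB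
      revert B
      decide)
    (by
      intro _ B hB
      rw [← Finset.mem_powerset] at hB
      revert B
      decide)
  have e1 : 6 * (4 * k) = 24 * k := by ring
  have e2 : (k - 1) * 6 + ({0, 1, 3, 4, 5} : Finset ℕ).card + ({1, 3, 4} : Finset ℕ).card
      = 6 * k + 2 := by
    have : ({0, 1, 3, 4, 5} : Finset ℕ).card = 5 := by decide
    have h2 : ({1, 3, 4} : Finset ℕ).card = 3 := by decide
    rw [this, h2]; omega
  rwa [e1, e2] at this

theorem good1 {n : ℕ} (hn : 2 ≤ n) : Good 1 n (n - 2) := by
  apply seg _ (by omega)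
  intro B hB hc
  rcases Nat.eq_zero_or_pos B.card with h | h
  · rw [Finset.card_eq_zero] at h
    subst h; simp; omega
  · obtain ⟨x, rfl⟩ := Finset.card_eq_one.1 (by omega : B.card = 1)
    have := Finset.mem_Icc.1 (hB (Finset.mem_singleton_self x))
    rw [Finset.sum_singleton]; omega

theorem good2 {n : ℕ} (hn : 2 ≤ n) : Good 2 n (n / 2) := by
  apply seg _ (by omega)
  intro B hB hc
  rcases Nat.lt_or_ge B.card 2 with h | h
  · rcases Nat.eq_zero_or_pos B.card with h | h
    · rw [Finset.card_eq_zero] at h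
      subst h; simp; omega
    · obtain ⟨x, rfl⟩ := Finset.card_eq_one.1 (by omega : B.card = 1)
      have := Finset.mem_Icc.1 (hB (Finset.mem_singleton_self x))
      rw [Finset.sum_singleton]; omega
  · obtain ⟨x, y, hxy, rfl⟩ := Finset.card_eq_two.1 (by omega : B.card = 2)
    have h1 := Finset.mem_Icc.1 (hB (Finset.mem_insert_self x _))
    have h2 := Finset.mem_Icc.1 (hB (Finset.mem_insert_of_mem (Finset.mem_singleton_self y)))
    rw [Finset.sum_pair hxy]; omega

end Pool.Agent.H95J.HamCore
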